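import Pool.Agent.H64.LB.Targets

/-!
# MP_2059f1_ag, modules HD1 and HDB: dimensions in mixed Hodge structures
-/

set_option autoImplicit false

open scoped TensorProduct

namespace Pool.Agent.H15.LB

open Pool.Agent.H64.LB

/-! ### Sums over intervals of integers -/

theorem Ioc_succ (a b : ℤ) (h : a ≤ b) : Finset.Ioc a (b + 1) = insert (b + 1) (Finset.Ioc a b) := by
  ext x
  simp only [Finset.mem_Ioc, Finset.mem_insert]
  omega

theorem sum_Ioc_succ (g : ℤ → ℤ) (a b : ℤ) (h : a ≤ b) :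
    ∑ k ∈ Finset.Ioc a (b + 1), g k = ∑ k ∈ Finset.Ioc a b, g k + g (b + 1) := by
  rw [Ioc_succ a b h, Finset.sum_insert, add_comm]
  simp

/-- telescoping -/
theorem tele (g : ℤ → ℤ) (a b : ℤ) (h : a ≤ b) :
    ∑ k ∈ Finset.Ioc a b, (g k - g (k - 1)) = g b - g a := by
  induction b, h using Int.leInduction with
  | base => simp
  | succ b h ih =>
    rw [sum_Ioc_succ _ a b h, ih]
    simp

theorem Ico_succ (a b : ℤ) (h : a ≤ b) : Finset.Ico a (b + 1) = insert b (Finset.Ico a b) := by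
  ext x
  simp only [Finset.mem_Ico, Finset.mem_insert]
  omega

/-- Abel summation -/
theorem abel (D : ℤ → ℤ) (a b : ℤ) (h : a ≤ b) :
    ∑ k ∈ Finset.Ioc a b, k * (D k - D (k - 1)) = b * D b - a * D a - ∑ k ∈ Finset.Ico a b, D k := by
  induction b, h using Int.leInduction with
  | base => simp
  | succ b h ih =>
    rw [sum_Ioc_succ _ a b h, ih, Ico_succ a b h, Finset.sum_insert (by simp)]
    simp only [add_sub_cancel_right]
    ring

theorem sum_split (g : ℤ → ℤ) (a b c : ℤ) (h : a ≤ b) (h' : b ≤ c) :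
    ∑ k ∈ Finset.Ioc a c, g k = ∑ k ∈ Finset.Ioc a b, g k + ∑ k ∈ Finset.Ioc b c, g k := by
  induction c, h' using Int.leInduction with
  | base => simp
  | succ c h' ih =>
    rw [sum_Ioc_succ _ a c (h.trans h'), ih, sum_Ioc_succ _ b c h', add_assoc]

/-- a function which is `w` for `p ≤ -N` and `0` for `N ≤ p` -/
theorem sum_step (g : ℤ → ℤ) (w : ℤ) (N : ℕ) (h1 : ∀ p ≤ (-N : ℤ), g p = w)
    (h2 : ∀ p ≥ (N : ℤ), g p = 0) (a b : ℤ) (ha : a ≤ -N) (hb : N ≤ b) :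
    ∑ p ∈ Finset.Ioc a b, g p = ∑ p ∈ Finset.Ioc (-N : ℤ) N, g p + (-N - a) * w := by
  rw [sum_split g a (-N) b ha (by omega), sum_split g (-N) N b (by omega) hb]
  have e1 : ∑ p ∈ Finset.Ioc a (-N : ℤ), g p = (-N - a) * w := by
    rw [Finset.sum_congr rfl (fun p hp => h1 p (Finset.mem_Ioc.1 hp).2), Finset.sum_const,
      Int.card_Ioc, nsmul_eq_mul]
    congr 1
    rw [Int.natCast_toNat_eq_self]
    omega
  have e2 : ∑ p ∈ Finset.Ioc (N : ℤ) b, g p = 0 :=
    Finset.sum_eq_zero (fun p hp => h2 p (Finset.mem_Ioc.1 hp).1.le)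
  rw [e1, e2]
  ring

/-- the symmetric sum -/
theorem sum_refl (g : ℤ → ℤ) (w : ℤ) (N : ℕ) (k : ℤ) (hk1 : -N < k) (hk2 : k ≤ N)
    (h1 : ∀ p ≤ (-N : ℤ), g p = w) (h2 : ∀ p ≥ (N : ℤ), g p = 0)
    (hs : ∀ p, g p + g (k + 1 - p) = w) :
    2 * ∑ p ∈ Finset.Ioc (-3 * N : ℤ) (3 * N), g p = (6 * N + k) * w := by
  have e1 := sum_step g w N h1 h2 (-3 * N) (3 * N) (by omega) (by omega)
  have e2 := sum_step g w N h1 h2 (k - 3 * N) (k + 3 * N) (by omega) (by omega)
  have e3 : ∑ p ∈ Finset.Ioc (-3 * N : ℤ) (3 * N), g (k + 1 - p) =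
      ∑ p ∈ Finset.Ioc (k - 3 * N : ℤ) (k + 3 * N), g p := by
    refine Finset.sum_bij' (fun p _ => k + 1 - p) (fun p _ => k + 1 - p) ?_ ?_ ?_ ?_ ?_
    · intro p hp
      simp only [Finset.mem_Ioc] at hp ⊢
      omega
    · intro p hp
      simp only [Finset.mem_Ioc] at hp ⊢
      omega
    · intro p _
      simp
    · intro p _
      simp
    · intro p _
      rfl
  have e4 : ∑ p ∈ Finset.Ioc (-3 * N : ℤ) (3 * N), g p +
      ∑ p ∈ Finset.Ioc (-3 * N : ℤ) (3 * N), g (k + 1 - p) = 6 * N * w := by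
    rw [← Finset.sum_add_distrib, Finset.sum_congr rfl (fun p _ => hs p), Finset.sum_const,
      Int.card_Ioc, nsmul_eq_mul]
    congr 1
    rw [Int.natCast_toNat_eq_self.2 (by omega)]
    ring
  rw [e3] at e4
  linarith [mul_comm (k : ℤ) w]

/-! ### Dimensions -/

section

variable {H : Type} [AddCommGroup H] [Module ℚ H]

theorem cj_tmul (z : ℂ) (h : H) : cj H (z ⊗ₜ h) = (starRingEnd ℂ z) ⊗ₜ h := rfl

theorem cj_cj (x : ℂ ⊗[ℚ] H) : cj H (cj H x) = x := by
  induction x using TensorProduct.induction_on with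
  | zero => simp
  | tmul z h => rw [cj_tmul, cj_tmul, Complex.conj_conj]
  | add x y hx hy => rw [map_add, map_add, hx, hy]

theorem cj_injective : Function.Injective (cj H) := by
  intro x y h
  rw [← cj_cj x, h, cj_cj]

theorem finrank_conj (V : Submodule ℂ (ℂ ⊗[ℚ] H)) :
    Module.finrank ℂ (conjSub V) = Module.finrank ℂ V := by
  unfold conjSub
  have e := Submodule.equivMapOfInjective (cj H) cj_injective V
  have h := rank_eq_of_equiv_equiv (starRingEnd ℂ) e.toAddEquiv (star_involutive.bijective)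
    (fun r m => e.map_smulₛₗ r m)
  exact (congrArg Cardinal.toNat h).symm

theorem finrank_bc [FiniteDimensional ℚ H] (W : Submodule ℚ H) :
    Module.finrank ℂ (W.baseChange ℂ) = Module.finrank ℚ W := by
  rw [← (Submodule.toBaseChange.toLinearEquiv ℂ W).finrank_eq]
  exact Module.finrank_baseChange

/-- dimension of the filtered piece -/
theorem finrank_FW [FiniteDimensional ℚ H] (M : MHS H) (k p : ℤ) :
    (Module.finrank ℂ (M.FW k p) : ℤ) =
      Module.finrank ℂ ((M.F p ⊓ (M.W k).baseChange ℂ : Submodule ℂ (ℂ ⊗[ℚ] H))) -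
        Module.finrank ℂ ((M.F p ⊓ (M.W (k - 1)).baseChange ℂ : Submodule ℂ (ℂ ⊗[ℚ] H))) +
          Module.finrank ℚ (M.W (k - 1)) := by
  have h1 := Submodule.finrank_sup_add_finrank_inf_eq (M.F p ⊓ (M.W k).baseChange ℂ)
    ((M.W (k - 1)).baseChange ℂ)
  have hle : (M.W (k - 1)).baseChange ℂ ≤ (M.W k).baseChange ℂ :=
    Submodule.baseChange_mono ℂ (M.W_mono (by omega))
  have h2 : (M.F p ⊓ (M.W k).baseChange ℂ) ⊓ (M.W (k - 1)).baseChange ℂ =
      M.F p ⊓ (M.W (k - 1)).baseChange ℂ := by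
    rw [inf_assoc, inf_eq_right.2 hle]
  rw [h2, finrank_bc] at h1
  unfold MHS.FW
  omega

end

/-- **Module HD1**. -/
theorem hd1 : T_HD1 := by
  intro H _ _ _ M N hWb hWt hFt hFb
  set D : ℤ → ℤ := fun k => (Module.finrank ℚ (M.W k) : ℤ) with hD
  set g : ℤ → ℤ → ℤ := fun k p => (Module.finrank ℂ (M.FW k p) : ℤ) - D (k - 1) with hg
  set E : ℤ → ℤ → ℤ := fun p k =>
    (Module.finrank ℂ ((M.F p ⊓ (M.W k).baseChange ℂ : Submodule ℂ (ℂ ⊗[ℚ] H))) : ℤ) with hE
  have hgE : ∀ k p, g k p = E p k - E p (k - 1) := by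
    intro k p
    simp only [hg, hE, hD]
    rw [finrank_FW]
    ring
  have hDN : D N = Module.finrank ℚ H := by
    simp only [hD]
    rw [hWt, finrank_top]
  have hD0 : D (-N) = 0 := by
    simp only [hD]
    rw [hWb, finrank_bot]
    rfl
  -- symmetry
  have hsym : ∀ k p, g k p + g k (k + 1 - p) = D k - D (k - 1) := by
    intro k p
    have h1 := Submodule.finrank_sup_add_finrank_inf_eq (M.FW k p) (conjSub (M.FW k (k + 1 - p)))
    have h2 : M.FW k p ⊔ conjSub (M.FW k (k + 1 - p)) = (M.W k).baseChange ℂ := M.sup_eq k p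
    have h3 : M.FW k p ⊓ conjSub (M.FW k (k + 1 - p)) = (M.W (k - 1)).baseChange ℂ :=
      M.inf_eq k p
    rw [h2, h3, finrank_bc, finrank_bc, finrank_conj] at h1
    simp only [hg, hD]
    omega
  -- extreme values
  have htop : ∀ k, ∀ p ≤ (-N : ℤ), g k p = D k - D (k - 1) := by
    intro k p hp
    have h1 : M.F p = ⊤ := by
      rw [eq_top_iff, ← hFt]
      exact M.F_anti hp
    rw [hgE]
    simp only [hE, hD]
    rw [h1, top_inf_eq, top_inf_eq, finrank_bc, finrank_bc]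
  have hbot : ∀ k, ∀ p ≥ (N : ℤ), g k p = 0 := by
    intro k p hp
    have h1 : M.F p = ⊥ := by
      rw [eq_bot_iff, ← hFb]
      exact M.F_anti hp
    rw [hgE]
    simp only [hE]
    rw [h1, bot_inf_eq, bot_inf_eq, sub_self]
  have htel : ∀ p, ∑ k ∈ Finset.Ioc (-N : ℤ) N, g k p = Module.finrank ℂ (M.F p) := by
    intro p
    rw [Finset.sum_congr rfl (fun k _ => hgE k p), tele (E p) (-N) N (by omega)]
    simp only [hE]
    rw [hWt, hWb, Submodule.baseChange_top, Submodule.baseChange_bot, inf_top_eq, inf_bot_eq,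
      finrank_bot]
    simp
  have h1 : ∑ p ∈ Finset.Ioc (-3 * N : ℤ) (3 * N), (Module.finrank ℂ (M.F p) : ℤ) =
      ∑ k ∈ Finset.Ioc (-N : ℤ) N, ∑ p ∈ Finset.Ioc (-3 * N : ℤ) (3 * N), g k p := by
    rw [Finset.sum_comm]
    exact Finset.sum_congr rfl (fun p _ => (htel p).symm)
  rw [h1, Finset.mul_sum]
  have h2 : ∀ k ∈ Finset.Ioc (-N : ℤ) N, 2 * ∑ p ∈ Finset.Ioc (-3 * N : ℤ) (3 * N), g k p =
      6 * N * (D k - D (k - 1)) + k * (D k - D (k - 1)) := by
    intro k hk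
    rw [Finset.mem_Ioc] at hk
    rw [sum_refl (g k) (D k - D (k - 1)) N k hk.1 hk.2 (htop k) (hbot k) (hsym k)]
    ring
  rw [Finset.sum_congr rfl h2, Finset.sum_add_distrib, ← Finset.mul_sum,
    tele D (-N) N (by omega), abel D (-N) N (by omega), hDN, hD0]
  have h3 : ∑ k ∈ Finset.Ico (-N : ℤ) N, D k = ∑ k ∈ Finset.Ioo (-N : ℤ) N, D k := by
    rcases Nat.eq_zero_or_pos N with h0 | h0
    · subst h0
      simp
    · have : Finset.Ico (-N : ℤ) N = insert (-N : ℤ) (Finset.Ioo (-N : ℤ) N) := by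
        ext x
        simp only [Finset.mem_Ico, Finset.mem_insert, Finset.mem_Ioo]
        omega
      rw [this, Finset.sum_insert (by simp), hD0, zero_add]
  rw [h3]
  ring

/-- **Module HDB**. -/
theorem hdb (hd : T_HD1) : T_HDB := by
  intro P H _ _ _ _ _ MP MH f hf hbij k
  have hfin : FiniteDimensional ℚ H :=
    Module.Finite.of_surjective f hbij.2
  have e : P ≃ₗ[ℚ] H := LinearEquiv.ofBijective f hbij
  have hdim : Module.finrank ℚ P = Module.finrank ℚ H :=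
    (LinearEquiv.ofBijective f hbij).finrank_eq
  have hbc : Function.Bijective (f.baseChange ℂ) := by
    have : (f.baseChange ℂ) = ((LinearEquiv.ofBijective f hbij).baseChange ℚ ℂ P H).toLinearMap := by
      ext x
      rfl
    rw [this]
    exact LinearEquiv.bijective _
  -- choice of `N`
  obtain ⟨N, hN⟩ : ∃ N : ℕ, MP.W (-N) = ⊥ ∧ MP.W N = ⊤ ∧ MP.F (-N) = ⊤ ∧ MP.F N = ⊥ ∧
      MH.W (-N) = ⊥ ∧ MH.W N = ⊤ ∧ MH.F (-N) = ⊤ ∧ MH.F N = ⊥ := by
    obtain ⟨a1, h1⟩ := MP.W_bot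
    obtain ⟨a2, h2⟩ := MP.W_top
    obtain ⟨a3, h3⟩ := MP.F_top
    obtain ⟨a4, h4⟩ := MP.F_bot
    obtain ⟨b1, g1⟩ := MH.W_bot
    obtain ⟨b2, g2⟩ := MH.W_top
    obtain ⟨b3, g3⟩ := MH.F_top
    obtain ⟨b4, g4⟩ := MH.F_bot
    refine ⟨a1.natAbs + a2.natAbs + a3.natAbs + a4.natAbs + b1.natAbs + b2.natAbs + b3.natAbs +
      b4.natAbs, ?_, ?_, ?_, ?_, ?_, ?_, ?_, ?_⟩
    · rw [eq_bot_iff, ← h1]
      exact MP.W_mono (by omega)
    · rw [eq_top_iff, ← h2]
      exact MP.W_mono (by omega)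
    · rw [eq_top_iff, ← h3]
      exact MP.F_anti (by omega)
    · rw [eq_bot_iff, ← h4]
      exact MP.F_anti (by omega)
    · rw [eq_bot_iff, ← g1]
      exact MH.W_mono (by omega)
    · rw [eq_top_iff, ← g2]
      exact MH.W_mono (by omega)
    · rw [eq_top_iff, ← g3]
      exact MH.F_anti (by omega)
    · rw [eq_bot_iff, ← g4]
      exact MH.F_anti (by omega)
  obtain ⟨p1, p2, p3, p4, q1, q2, q3, q4⟩ := hN
  have hWle : ∀ j, Module.finrank ℚ (MP.W j) ≤ Module.finrank ℚ (MH.W j) := by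
    intro j
    have h1 : (MP.W j).map f ≤ MH.W j := by
      rintro _ ⟨z, hz, rfl⟩
      exact hf.1 j z hz
    have h2 : Module.finrank ℚ ((MP.W j).map f) = Module.finrank ℚ (MP.W j) :=
      (Submodule.equivMapOfInjective f hbij.1 (MP.W j)).symm.finrank_eq
    rw [← h2]
    exact Submodule.finrank_mono h1
  have hFle : ∀ j, Module.finrank ℂ (MP.F j) ≤ Module.finrank ℂ (MH.F j) := by
    intro j
    have h1 : (MP.F j).map (f.baseChange ℂ) ≤ MH.F j := by
      rintro _ ⟨z, hz, rfl⟩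
      exact hf.2 j z hz
    have h2 : Module.finrank ℂ ((MP.F j).map (f.baseChange ℂ)) = Module.finrank ℂ (MP.F j) :=
      (Submodule.equivMapOfInjective (f.baseChange ℂ) hbc.1 (MP.F j)).symm.finrank_eq
    rw [← h2]
    exact Submodule.finrank_mono h1
  have hP := hd P MP N p1 p2 p3 p4
  have hH := hd H MH N q1 q2 q3 q4
  have hsumF : ∑ p ∈ Finset.Ioc (-3 * N : ℤ) (3 * N), (Module.finrank ℂ (MP.F p) : ℤ) ≤
      ∑ p ∈ Finset.Ioc (-3 * N : ℤ) (3 * N), (Module.finrank ℂ (MH.F p) : ℤ) :=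
    Finset.sum_le_sum (fun p _ => by exact_mod_cast hFle p)
  have hsumW : ∑ p ∈ Finset.Ioo (-N : ℤ) N, (Module.finrank ℚ (MP.W p) : ℤ) ≤
      ∑ p ∈ Finset.Ioo (-N : ℤ) N, (Module.finrank ℚ (MH.W p) : ℤ) :=
    Finset.sum_le_sum (fun p _ => by exact_mod_cast hWle p)
  have hsumeq : ∑ p ∈ Finset.Ioo (-N : ℤ) N, (Module.finrank ℚ (MP.W p) : ℤ) =
      ∑ p ∈ Finset.Ioo (-N : ℤ) N, (Module.finrank ℚ (MH.W p) : ℤ) := by
    rw [hdim] at hP
    linarith
  have heach := (Finset.sum_eq_sum_iff_of_le (fun p _ => by exact_mod_cast hWle p)).1 hsumeq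
  by_cases h1 : k ≤ -N
  · have h2 : MP.W k = ⊥ := by
      rw [eq_bot_iff, ← p1]
      exact MP.W_mono h1
    have h3 : MH.W k = ⊥ := by
      rw [eq_bot_iff, ← q1]
      exact MH.W_mono h1
    rw [h2, h3, Submodule.map_bot]
  by_cases h1' : (N : ℤ) ≤ k
  · have h2 : MP.W k = ⊤ := by
      rw [eq_top_iff, ← p2]
      exact MP.W_mono h1'
    have h3 : MH.W k = ⊤ := by
      rw [eq_top_iff, ← q2]
      exact MH.W_mono h1'
    rw [h2, h3, Submodule.map_top, LinearMap.range_eq_top]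
    exact hbij.2
  · have h2 := heach k (Finset.mem_Ioo.2 ⟨by omega, by omega⟩)
    apply Submodule.eq_of_le_of_finrank_eq
    · rintro _ ⟨z, hz, rfl⟩
      exact hf.1 k z hz
    · rw [(Submodule.equivMapOfInjective f hbij.1 (MP.W k)).symm.finrank_eq]
      exact_mod_cast h2

end Pool.Agent.H15.LB
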